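import Pool.Agent.Lib.MP_c9a594_an.Final

/-- For multiplicatively independent bases `a`, `b` and any constant `C`, the numbers
`x ∈ [0,1)` whose block complexities in base `a` and in base `b` add up to at most `C n` for all
`n ≥ 1` lie in a finite set of rational numbers. -/
theorem Pool.Agent.Variants.MP_c9a594_an.LinearComplexity.result (a b : ℕ) (ha : 2 ≤ a)
    (hb : 2 ≤ b) (hab : ∀ k l : ℕ, 0 < k → 0 < l → a ^ k ≠ b ^ l) (C : ℝ) :
    ∃ F : Finset ℚ, ∀ x ∈ Set.Ico (0 : ℝ) 1,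
      (∀ n : ℕ, 1 ≤ n →
        ((Set.ncard {z : ℤ | ∃ k : ℕ, z = ⌊(a : ℝ) ^ n * Int.fract ((a : ℝ) ^ k * x)⌋} : ℝ) +
          (Set.ncard {z : ℤ | ∃ k : ℕ, z = ⌊(b : ℝ) ^ n * Int.fract ((b : ℝ) ^ k * x)⌋} : ℝ))
          ≤ C * n) → ∃ r ∈ F, x = (r : ℝ) :=
  Pool.Agent.Lib.MP_c9a594_an.finite_rational a b ha hb hab C
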