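import Mathlib
import Pool.Agent.Lib.MP_c9a594_an.Real

/-!
For every irrational x, the exponents n for which the orbit of a^n x under multiplication by b
misses a given interval have density zero, uniformly in x.
-/

namespace Pool.Agent.Variants.MP_c9a594_an.UniformDensityZero

theorem result (a b : ℕ) (ha : 2 ≤ a) (hb : 2 ≤ b)
    (hab : ∀ m n : ℕ, a ^ m = b ^ n → m = 0 ∧ n = 0)
    (u v : ℝ) (hu : 0 ≤ u) (huv : u < v) (hv : v ≤ 1) (δ : ℝ) (hδ : 0 < δ) :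
    ∃ N₀ : ℕ, ∀ N : ℕ, N₀ ≤ N → ∀ x : ℝ, Irrational x →
      (({n : ℕ | n < N ∧ ∀ m : ℕ,
        Int.fract ((a : ℝ) ^ n * (b : ℝ) ^ m * x) ∉ Set.Ioo u v}.ncard : ℕ) : ℝ) ≤ δ * N :=
  Pool.Agent.Lib.MP_c9a594_an.uniform_density a b ha hb hab u v hu huv hv δ hδ

end Pool.Agent.Variants.MP_c9a594_an.UniformDensityZero
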